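import Pool.Agent.MDG.StmtsZ

/-!
Row NUZ of squad MDG (after row NUM of squad HEC).
-/

set_option autoImplicit false

namespace Pool.Agent.MDG.H72

open Pool.Agent.HEC

theorem aux1 (j : ℕ) : 8 * (2 * (j + 14) + 2) * (2 * (j + 14) + 2 + 1) ^ 2 *
    (2 * (2 * (j + 14) + 2) + 1) ≤ 1500 * 2 ^ (j + 14) := by
  induction j with
  | zero => norm_num
  | succ j ih =>
    have e : (2 : ℕ) ^ (j + 1 + 14) = 2 * 2 ^ (j + 14) := by rw [← pow_succ']
    rw [e]
    have h : 8 * (2 * (j + 1 + 14) + 2) * (2 * (j + 1 + 14) + 2 + 1) ^ 2 *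
        (2 * (2 * (j + 1 + 14) + 2) + 1) ≤
        2 * (8 * (2 * (j + 14) + 2) * (2 * (j + 14) + 2 + 1) ^ 2 *
          (2 * (2 * (j + 14) + 2) + 1)) := by
      ring_nf
      nlinarith [sq_nonneg j, Nat.zero_le j, Nat.zero_le (j ^ 3), Nat.zero_le (j ^ 4)]
    omega

theorem aux2 (j : ℕ) : 2 * (2 * (j + 14) + 2) ^ 2 ≤ 2 ^ (j + 14) := by
  induction j with
  | zero => norm_num
  | succ j ih =>
    have e : (2 : ℕ) ^ (j + 1 + 14) = 2 * 2 ^ (j + 14) := by rw [← pow_succ']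
    rw [e]
    have h : 2 * (2 * (j + 1 + 14) + 2) ^ 2 ≤ 2 * (2 * (2 * (j + 14) + 2) ^ 2) := by
      ring_nf
      nlinarith [sq_nonneg j, Nat.zero_le j]
    omega

theorem nuz : NuzStmt := by
  intro n hn
  have h0 : n ≠ 0 := by omega
  have h1 : 2 ^ Nat.log 2 n ≤ n := Nat.pow_log_le_self 2 h0
  have h13 : 13 ≤ Nat.log 2 n := by
    have := Nat.log_mono_right (b := 2) (show 2 ^ 13 ≤ n by norm_num; omega)
    rwa [Nat.log_pow (by norm_num : 1 < 2)] at this
  unfold len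
  rcases Nat.lt_or_ge 13 (Nat.log 2 n) with h | h
  · obtain ⟨j, hj⟩ := Nat.exists_eq_add_of_le (show 14 ≤ Nat.log 2 n from h)
    have hj' : Nat.log 2 n = j + 14 := by omega
    rw [hj'] at h1 ⊢
    constructor
    · exact (aux1 j).trans (Nat.mul_le_mul_left _ h1)
    · exact (aux2 j).trans h1
  · have h' : Nat.log 2 n = 13 := by omega
    rw [h']
    constructor
    · norm_num
      omega
    · norm_num
      omega

end Pool.Agent.MDG.H72
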